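import Pool.Agent.R443.Nu2c

/-!
# Infinitely many maximal `(ν₂, 4)`-progressions

For every prime `p ≡ 7 (mod 8)` the pair `(4 p², 2 p)` is a `(ν₂, 4)`-progression, and every
`(ν₂, 4)`-progression containing it has a first entry divisible by `p`.
-/

set_option autoImplicit false

namespace Pool.Agent.Results.MP_c222f6_nt.InfinitelyManyNu2

open Finset Pool.Agent.R443

/-- `nu k n` is the number of partitions of `n` in which exactly `k` distinct part sizes occur. -/
def nu (k n : ℕ) : ℕ :=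
  (univ.filter (fun p : n.Partition => p.parts.toFinset.card = k)).card

/-- The arithmetic progression `P(A, B) = {A n + B : n ≥ 0}`. -/
def P (A B : ℕ) : Set ℕ := {x | ∃ n : ℕ, x = A * n + B}

/-- `(A, B)` is a `(ν_k, M)`-progression. -/
def IsProgression (k M A B : ℕ) : Prop :=
  1 ≤ A ∧ 1 ≤ B ∧ B ≤ A ∧ ∀ n : ℕ, M ∣ nu k (A * n + B)

/-- `(A, B)` is a maximal `(ν_k, M)`-progression. -/
def IsMaximal (k M A B : ℕ) : Prop :=
  IsProgression k M A B ∧ ¬ ∃ A' B' : ℕ, IsProgression k M A' B' ∧ P A B ⊂ P A' B'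

/-- Containment of progressions. -/
theorem P_subset {A B A' B' : ℕ} (h : P A B ⊆ P A' B') : A' ∣ A ∧ B' ≤ B ∧ A' ∣ B - B' := by
  obtain ⟨u, hu⟩ := h (show B ∈ P A B from ⟨0, by ring⟩)
  obtain ⟨v, hv⟩ := h (show A + B ∈ P A B from ⟨1, by ring⟩)
  refine ⟨?_, by nlinarith, ⟨u, by omega⟩⟩
  have hvu : A + A' * u = A' * v := by omega
  have h2 : A = A' * v - A' * u := by omega
  rw [h2, ← Nat.mul_sub]
  exact dvd_mul_right _ _

theorem ssubset_lt {A B A' B' : ℕ} (hA : B ≤ A) (hB : 1 ≤ B) (hB' : 1 ≤ B') (hA' : B' ≤ A')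
    (h : P A B ⊂ P A' B') : A' < A := by
  obtain ⟨h1, h2, h3⟩ := P_subset h.1
  have h4 : A' ≤ A := Nat.le_of_dvd (by omega) h1
  rcases lt_or_eq_of_le h4 with h5 | h5
  · exact h5
  · exfalso
    subst h5
    obtain ⟨w, hw⟩ := h3
    have hw0 : w = 0 := by
      rcases Nat.eq_zero_or_pos w with h | h
      · exact h
      · exfalso
        have : A' * 1 ≤ A' * w := Nat.mul_le_mul_left _ h
        omega
    subst hw0
    have : B = B' := by omega
    subst this
    exact h.2 (subset_refl _)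

/-- Every progression lies in a maximal one. -/
theorem exists_maximal (k M : ℕ) : ∀ A B : ℕ, IsProgression k M A B →
    ∃ A' B' : ℕ, IsMaximal k M A' B' ∧ P A B ⊆ P A' B' := by
  intro A
  induction A using Nat.strong_induction_on with
  | _ A ih =>
    intro B hAB
    by_cases hmax : ∃ A' B' : ℕ, IsProgression k M A' B' ∧ P A B ⊂ P A' B'
    · obtain ⟨A', B', h1, h2⟩ := hmax
      have hlt := ssubset_lt hAB.2.2.1 hAB.2.1 h1.2.1 h1.2.2.1 h2
      obtain ⟨A'', B'', h3, h4⟩ := ih A' hlt B' h1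
      exact ⟨A'', B'', h3, h2.1.trans h4⟩
    · exact ⟨A, B, ⟨hAB, hmax⟩, subset_refl _⟩

theorem not_sum_sq {p N : ℕ} (hp : p.Prime) (hp4 : p % 8 = 7) (h1 : p ∣ N) (h2 : ¬ p ^ 2 ∣ N)
    (x y : ℕ) : x * x + y * y ≠ 2 * N := by
  intro h
  have : Fact p.Prime := ⟨hp⟩
  have hodd : Nat.Coprime (p ^ 2) 2 := by
    apply Nat.Coprime.pow_left
    rw [Nat.coprime_comm, Nat.coprime_two_left, Nat.odd_iff]
    omega
  have hxy : (x : ZMod p) ^ 2 = -(y : ZMod p) ^ 2 := by
    have h3 : ((x * x + y * y : ℕ) : ZMod p) = 0 := by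
      rw [h, ZMod.natCast_eq_zero_iff]
      exact Dvd.dvd.mul_left h1 2
    push_cast at h3
    linear_combination h3
  have hy : (y : ZMod p) = 0 := by
    by_contra hy
    exact ZMod.mod_four_ne_three_of_sq_eq_neg_sq' hy hxy (by omega)
  have hx : (x : ZMod p) = 0 := by
    rw [hy] at hxy
    have : (x : ZMod p) ^ 2 = 0 := by rw [hxy]; ring
    exact pow_eq_zero_iff (two_ne_zero) |>.mp this
  rw [ZMod.natCast_eq_zero_iff] at hx hy
  apply h2
  apply hodd.dvd_of_dvd_mul_left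
  rw [← h, ← pow_two, ← pow_two]
  exact dvd_add (pow_dvd_pow_of_dvd hx 2) (pow_dvd_pow_of_dvd hy 2)

theorem sigma_dvd {p b : ℕ} (hp : p.Prime) (hp4 : p % 8 = 7) (hb : b % 2 = 1) (hpb : ¬ p ∣ b) :
    8 ∣ ∑ a ∈ (2 * (p * b)).divisors, a := by
  have hcop1 : Nat.Coprime p b := (Nat.Prime.coprime_iff_not_dvd hp).mpr hpb
  have hcop2 : Nat.Coprime 2 (p * b) := by
    rw [Nat.coprime_two_left, Nat.odd_iff, Nat.mul_mod]
    have : p % 2 = 1 := by omega
    rw [this, hb]
  rw [Nat.Coprime.sum_divisors_mul hcop2, Nat.Coprime.sum_divisors_mul hcop1]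
  apply Dvd.dvd.mul_left
  apply Dvd.dvd.mul_right
  rw [Nat.Prime.sum_divisors hp]
  omega

/-- `(4 p², 2 p)` is a `(ν₂, 4)`-progression. -/
theorem progression {p : ℕ} (hp : p.Prime) (hp4 : p % 8 = 7) :
    IsProgression 2 4 (4 * p ^ 2) (2 * p) := by
  have hp0 := hp.pos
  refine ⟨Nat.one_le_iff_ne_zero.mpr (by positivity), by omega, by nlinarith, ?_⟩
  intro n
  set b := 2 * (p * n) + 1 with hb
  have e : 4 * p ^ 2 * n + 2 * p = 2 * (p * b) := by rw [hb]; ring
  have hpb : ¬ p ∣ b := by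
    intro h
    have h1 : p ∣ 1 := by
      have := (Nat.dvd_add_right (Dvd.dvd.mul_left (dvd_mul_right p n) 2)).mp h
      exact this
    exact hp.one_lt.ne' (Nat.dvd_one.mp h1)
  rw [e]
  apply Nu2.four_dvd_nu
  · rw [Nat.mul_mod]
    have h1 : p % 2 = 1 := by omega
    have h2 : b % 2 = 1 := by omega
    rw [h1, h2]
  · intro x y _ _
    apply not_sum_sq hp hp4 (dvd_mul_right p b)
    rw [pow_two]
    intro h
    exact hpb (Nat.dvd_of_mul_dvd_mul_left hp0 h)
  · exact sigma_dvd hp hp4 (by omega) hpb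

theorem nu_six : nu 2 6 = 6 := by
  have h : 2 * nu 2 6 + ∑ a ∈ (6 : ℕ).divisors, a =
    ∑ p ∈ antidiagonal 6, p.1.divisors.card * p.2.divisors.card + (6 : ℕ).divisors.card :=
    Nu2.nu_formula 6
  have h1 : ∑ a ∈ (6 : ℕ).divisors, a = 12 := by decide +kernel
  have h2 : ∑ p ∈ antidiagonal 6, p.1.divisors.card * p.2.divisors.card = 20 := by decide +kernel
  have h3 : (6 : ℕ).divisors.card = 4 := by decide +kernel
  omega

/-- The first entries of the maximal progressions are unbounded. -/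
theorem unbounded (N : ℕ) : ∃ A B : ℕ, IsMaximal 2 4 A B ∧ N < A := by
  obtain ⟨p, hpN, hp, hpeq⟩ := Nat.forall_exists_prime_gt_and_eq_mod (q := 8) (a := 7)
    (by decide) N
  have hp8 : p % 8 = 7 := by
    have h1 : ((p : ℕ) : ZMod 8) = ((7 : ℕ) : ZMod 8) := by rw [hpeq]; rfl
    have h2 := (ZMod.natCast_eq_natCast_iff p 7 8).mp h1
    exact h2
  obtain ⟨A, B, hmax, hsub⟩ := exists_maximal 2 4 _ _ (progression hp hp8)
  refine ⟨A, B, hmax, ?_⟩
  obtain ⟨h1, h2, h3⟩ := P_subset hsub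
  obtain ⟨hA1, hB1, hBA, hdiv⟩ := hmax.1
  have hpA : p ∣ A := by
    by_contra hcon
    have hcop : Nat.Coprime A (p ^ 2) := by
      apply Nat.Coprime.pow_right
      rw [Nat.coprime_comm]
      exact (Nat.Prime.coprime_iff_not_dvd hp).mpr hcon
    have h4 : A ∣ 4 := hcop.dvd_of_dvd_mul_right h1
    have hA4 : A ≤ 4 := Nat.le_of_dvd (by norm_num) h4
    have h6 : ∃ n, A * n + B = 6 := by
      obtain ⟨w, hw⟩ := h3
      have hp' : ∃ m, p = 8 * m + 7 := ⟨p / 8, by omega⟩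
      obtain ⟨m, rfl⟩ := hp'
      interval_cases A
      · exact ⟨6 - B, by omega⟩
      · exact ⟨(6 - B) / 2, by omega⟩
      · omega
      · exact ⟨(6 - B) / 4, by omega⟩
    obtain ⟨n, hn⟩ := h6
    have := hdiv n
    rw [hn, nu_six] at this
    omega
  exact lt_of_lt_of_le hpN (Nat.le_of_dvd (by omega) hpA)

/-- There are infinitely many maximal `(ν₂, 4)`-progressions. -/
theorem result : {q : ℕ × ℕ | IsMaximal 2 4 q.1 q.2}.Infinite := by
  intro hfin
  obtain ⟨M, hM⟩ := (hfin.image Prod.fst).bddAbove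
  obtain ⟨A, B, h1, h2⟩ := unbounded M
  have : A ≤ M := hM ⟨(A, B), h1, rfl⟩
  omega

end Pool.Agent.Results.MP_c222f6_nt.InfinitelyManyNu2
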